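import Pool.Agent.ZRT.StmtsB

/-!
# ZRT, row CH6 (helper25): conclusion of the core argument
-/

set_option autoImplicit false

noncomputable section

open scoped ContDiff Topology RealInnerProductSpace
open Set

namespace Pool.Agent.ZRT.H25

open Pool.Agent.RF Pool.Agent.MVS Pool.Agent.ZRT

theorem un_zero (u n : E5) : Un u n 0 = u := by
  unfold Un
  rw [Real.cos_zero, Real.sin_zero, one_smul, zero_smul, add_zero]

theorem ch6 (hX : Xb1Statement) (hS : XshStatement) (hU : LunStatement) : Ch6Statement := by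
  intro G ex p q u n L w hC H hH h0
  have hcyl := hC.geo.cyl
  have hsec := hC.geo.sec
  have hexp := hC.geo.exp
  obtain ⟨U, hUdef⟩ : ∃ U : E5, U = Un u n w := ⟨_, rfl⟩
  have hL0 := hC.L0
  have hLpi := hC.Lpi
  -- the point m
  obtain ⟨m, hm⟩ : ∃ m : E5, m = ex (p, (L / 2) • u) := ⟨_, rfl⟩
  have hmO : m ∈ Om (Fin 5) := by
    rw [hm]
    exact hexp.mem p hC.hp _
  have h12 : (1 / 2 : ℝ) ∈ Icc (0 : ℝ) 1 := ⟨by norm_num, by norm_num⟩
  have h11 : (1 : ℝ) ∈ Icc (0 : ℝ) 1 := ⟨by norm_num, by norm_num⟩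
  have h00 : (0 : ℝ) ∈ Icc (0 : ℝ) 1 := ⟨by norm_num, by norm_num⟩
  have hmU : ex (p, (L / 2) • U) = m := by
    have h := hH.eq 1 h11 (1 / 2) h12
    rw [h0, ← hm, hexp.zero m hmO, one_mul, ← hUdef] at h
    rw [h]
    congr 2
    ring_nf
  -- G p U U = 1
  have hnu : G p n u = 0 := by
    rw [hcyl.metric.symm p hC.hp n u]
    exact hC.un
  have hGU : G p U U = 1 := by
    rw [hUdef]
    unfold Un
    simp only [map_add, map_smul, ContinuousLinearMap.add_apply, ContinuousLinearMap.smul_apply,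
      smul_eq_mul, hC.uu, hC.nn, hC.un, hnu]
    have := Real.sin_sq_add_cos_sq w
    nlinarith
  have hGuU : G p u U = Real.cos w := by
    rw [hUdef]
    unfold Un
    rw [map_add, map_smul, map_smul, hC.uu, hC.un, smul_eq_mul, smul_eq_mul, mul_one, mul_zero,
      add_zero]
  obtain ⟨v1, hv1⟩ : ∃ v1 : E5, v1 = Tf ex p U (L / 2) := ⟨_, rfl⟩
  obtain ⟨v0, hv0⟩ : ∃ v0 : E5, v0 = Tf ex p u (L / 2) := ⟨_, rfl⟩
  have hGv1 : G m v1 v1 = 1 := by
    have h := (hX G ex hcyl hexp p hC.hp).2.2.2.2.1 U (L / 2)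
    rw [hmU, ← hv1, hGU] at h
    exact h
  -- the two lifts
  have hy : IsLift G ex m (fun τ => ex (p, ((1 - τ) / 2 * L) • U))
      (fun τ => H 1 ((1 - τ) / 2)) := by
    have hmem : ∀ τ ∈ Icc (0 : ℝ) 1, (1 - τ) / 2 ∈ Icc (0 : ℝ) 1 := by
      intro τ hτ
      exact ⟨by linarith [hτ.2], by linarith [hτ.1]⟩
    refine ⟨?_, ?_, ?_⟩
    · have h1 : ContinuousOn (fun τ : ℝ => ((1 : ℝ), (1 - τ) / 2)) (Icc 0 1) := by
        apply Continuous.continuousOn
        fun_prop
      exact hH.cont.comp h1 fun τ hτ => ⟨h11, hmem τ hτ⟩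
    · intro τ hτ
      have h := hH.lt 1 h11 _ (hmem τ hτ)
      rw [← hm] at h
      exact h
    · intro τ hτ
      have h := hH.eq 1 h11 _ (hmem τ hτ)
      rw [← hm, one_mul, ← hUdef] at h
      exact h
  have hz : IsLift G ex m (fun τ => ex (p, ((1 - τ) / 2 * L) • U))
      (fun τ => (-(τ * (L / 2))) • v1) := by
    refine ⟨?_, ?_, ?_⟩
    · apply Continuous.continuousOn
      fun_prop
    · intro τ hτ
      show nm G m ((-(τ * (L / 2))) • v1) < Real.pi
      have h1 : nm G m ((-(τ * (L / 2))) • v1) = τ * (L / 2) := by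
        unfold nm
        rw [map_smul, map_smul, ContinuousLinearMap.smul_apply, smul_eq_mul, smul_eq_mul, hGv1]
        have : -(τ * (L / 2)) * (-(τ * (L / 2)) * 1) = (τ * (L / 2)) ^ 2 := by ring
        rw [this, Real.sqrt_sq]
        exact mul_nonneg hτ.1 (by linarith)
      rw [h1]
      have h2 : τ * (L / 2) ≤ 1 * (L / 2) := mul_le_mul_of_nonneg_right hτ.2 (by linarith)
      linarith
    · intro τ hτ
      show ex (m, (-(τ * (L / 2))) • v1) = ex (p, ((1 - τ) / 2 * L) • U)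
      have h := (hS G ex hcyl hexp p hC.hp U (L / 2) (-(τ * (L / 2)))).1
      rw [hmU, ← hv1] at h
      rw [h]
      congr 3
      ring
  have h3 : ∃ s ∈ Icc (0 : ℝ) 1, (fun τ => H 1 ((1 - τ) / 2)) s =
      (fun τ => (-(τ * (L / 2))) • v1) s := by
    refine ⟨0, h00, ?_⟩
    show H 1 ((1 - 0) / 2) = (-(0 * (L / 2))) • v1
    rw [sub_zero, h0, zero_mul, neg_zero, zero_smul]
  have h4 := hU G ex hcyl hsec hexp m hmO _ _ _ hy hz h3 1 h11
  have h5 : H 1 0 = (-(L / 2)) • v1 := by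
    have h6 : H 1 ((1 - 1) / 2) = (-(1 * (L / 2))) • v1 := h4
    rw [sub_self, zero_div, one_mul] at h6
    exact h6
  have h6 := hH.base 1 h11
  rw [← hv0, h5] at h6
  have h7 : v1 = v0 := by
    have hne : (-(L / 2) : ℝ) ≠ 0 := by
      have : 0 < L / 2 := by linarith
      linarith
    exact smul_right_injective E5 hne h6
  -- u = U
  have h8 := (hS G ex hcyl hexp p hC.hp u (L / 2) (-(L / 2))).2
  have h9 := (hS G ex hcyl hexp p hC.hp U (L / 2) (-(L / 2))).2
  rw [← hm, ← hv0, add_neg_cancel] at h8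
  rw [hmU, ← hv1, h7, add_neg_cancel] at h9
  have h10 : ∀ v : E5, Tf ex p v 0 = v := by
    intro v
    unfold Tf
    rw [zero_smul]
    exact (hX G ex hcyl hexp p hC.hp).2.1 v
  rw [h10] at h8 h9
  have h11' : u = U := by rw [← h8, ← h9]
  have h12' : Real.cos w = 1 := by
    rw [← hGuU, ← h11', hC.uu]
  have h13 : Real.cos w < 1 := by
    have h14 : w ≤ Real.pi := by
      have := Real.pi_gt_three
      linarith [hC.w1]
    have h15 := Real.cos_lt_cos_of_nonneg_of_le_pi le_rfl h14 hC.w0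
    rw [Real.cos_zero] at h15
    exact h15
  linarith

end Pool.Agent.ZRT.H25
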